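import Pool.Agent.H.MP_cc6759_lc.D

namespace Pool.Agent.Results.MP_cc6759_lc.Half

open Finset Module

variable {R : Type} [CommRing R]

/-- the infinite digit sequence `s` is the `p`-adic expansion of `f / g` -/
def Outputs (p : R) {N : ℕ} (f g : R) (s : ℕ → Fin N) : Prop :=
  ∀ k : ℕ, p ^ k ∣ f - g * ∑ i ∈ range k, ((s i : ℕ) : R) * p ^ i

/-- complexity of a finite sequence: least size of a register whose first outputs are `a` -/
noncomputable def lam (φ : R → ℝ) (p : R) {N n : ℕ} (a : Fin n → Fin N) : ℝ :=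
  sInf {t : ℝ | ∃ (f g : R) (s : ℕ → Fin N), (∃ x : R, p ∣ g * x - 1) ∧ Outputs p f g s ∧
    (∀ i : Fin n, s i = a i) ∧ t = max (φ f) (φ g)}

/-- average complexity of the sequences of length `n` -/
noncomputable def Efin (φ : R → ℝ) (p : R) (N n : ℕ) : ℝ :=
  (∑ a : Fin n → Fin N, lam φ p a) / (N : ℝ) ^ n

/-- size, case (i) -/
noncomputable def size1 (N : ℕ) (b : Basis (Fin 2) ℤ R) (x : R) : ℝ :=
  Real.logb N ((b.repr x 0 : ℝ) ^ 2 + N * (b.repr x 1 : ℝ) ^ 2)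

/-- size, case (ii) -/
noncomputable def size2 (N : ℕ) {d : ℕ} (b : Basis (Fin d) ℤ R) (x : R) : ℝ :=
  ⨆ i : {i : Fin d // b.repr x i ≠ 0}, (d * Real.logb N |(b.repr x i : ℝ)| + (i.1 : ℕ))

open Pool.Agent.H.MP_cc6759_lc in
lemma lam_eq [IsDomain R] {d : ℕ} (b : Basis (Fin d) ℤ R) {p : R} {N K n : ℕ} (h : Hyp b p N K)
    (φ : R → ℝ) (a : Fin n → Fin N) :
    lam φ p a = sInf {t : ℝ | ∃ f g, Adm p a f g ∧ t = max (φ f) (φ g)} := by
  unfold lam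
  congr 1
  ext t
  constructor
  · rintro ⟨f, g, s, h1, h2, h3, h4⟩
    exact ⟨f, g, (adm_iff b h a f g).1 ⟨s, h1, h2, h3⟩, h4⟩
  · rintro ⟨f, g, h1, h4⟩
    obtain ⟨s, h1, h2, h3⟩ := (adm_iff b h a f g).2 h1
    exact ⟨f, g, s, h1, h2, h3, h4⟩

theorem result :
    (∀ (R : Type) [CommRing R] [IsDomain R] (N : ℕ) (p : R) (b : Basis (Fin 2) ℤ R),
      2 ≤ N → (∀ i, b i = p ^ (i : ℕ)) → p ^ 2 = -(N : R) →
      ∃ C : ℝ, ∀ n : ℕ, |Efin (size1 N b) p N n - (n : ℝ) / 2| ≤ C) ∧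
    (∀ (R : Type) [CommRing R] [IsDomain R] (N d : ℕ) (p : R) (b : Basis (Fin d) ℤ R),
      2 ≤ N → 1 ≤ d → (∀ i, b i = p ^ (i : ℕ)) → p ^ d = (N : R) →
      ∃ C : ℝ, ∀ n : ℕ, |Efin (size2 N b) p N n - (n : ℝ) / 2| ≤ C) := by
  constructor
  · intro R _ _ N p b hN hb hp
    obtain ⟨K, h⟩ := Pool.Agent.H.MP_cc6759_lc.hyp_of b hN (by norm_num) hb (-(N : ℤ)) (by simp)
      (by simpa using hp)
    obtain ⟨C, hC⟩ := Pool.Agent.H.MP_cc6759_lc.main b h hN (by norm_num) (size1 N b) 2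
      (fun x => (Pool.Agent.H.MP_cc6759_lc.size1 b hN x).1)
      (fun x => (Pool.Agent.H.MP_cc6759_lc.size1 b hN x).2)
    refine ⟨C, fun n => ?_⟩
    simpa only [Efin, lam_eq b h] using hC n
  · intro R _ _ N d p b hN hd hb hp
    obtain ⟨K, h⟩ := Pool.Agent.H.MP_cc6759_lc.hyp_of b hN hd hb (N : ℤ) (by simp)
      (by simpa using hp)
    obtain ⟨C, hC⟩ := Pool.Agent.H.MP_cc6759_lc.main b h hN hd (size2 N b) d
      (fun x => (Pool.Agent.H.MP_cc6759_lc.size2 b hN hd x).1)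
      (fun x => (Pool.Agent.H.MP_cc6759_lc.size2 b hN hd x).2)
    refine ⟨C, fun n => ?_⟩
    simpa only [Efin, lam_eq b h] using hC n

end Pool.Agent.Results.MP_cc6759_lc.Half
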